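import Pool.Agent.H181R5.NLT.Stmts

set_option autoImplicit false

/-! TaskNum2 of project H181-NLT (helper444). -/

namespace Pool.Agent.H444R3.NLT

open Finset Pool.Agent.H181R5.NLT

theorem root_le (s r : ℕ) (h : s < (r + 1) ^ 4) : (s : ℝ) ^ (1 / 4 : ℝ) ≤ r + 1 := by
  have h1 : (s : ℝ) ≤ ((r : ℝ) + 1) ^ (4 : ℕ) := by exact_mod_cast h.le
  calc (s : ℝ) ^ (1 / 4 : ℝ) ≤ (((r : ℝ) + 1) ^ (4 : ℕ)) ^ (1 / 4 : ℝ) :=
        Real.rpow_le_rpow (by positivity) h1 (by norm_num)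
    _ = r + 1 := by
        have := Real.pow_rpow_inv_natCast (x := (r : ℝ) + 1) (n := 4) (by positivity) (by norm_num)
        rw [show (1 / 4 : ℝ) = ((4 : ℕ) : ℝ)⁻¹ by norm_num]
        exact this

theorem taskNum2 : TaskNum2 := by
  intro s hs
  obtain ⟨r, h1, h2⟩ : ∃ r : ℕ, r ^ 4 ≤ s ∧ s < (r + 1) ^ 4 := by
    refine ⟨Nat.sqrt (Nat.sqrt s), ?_, ?_⟩
    · have a1 := Nat.sqrt_le' s
      have a2 := Nat.sqrt_le' (Nat.sqrt s)
      calc Nat.sqrt (Nat.sqrt s) ^ 4 = (Nat.sqrt (Nat.sqrt s) ^ 2) ^ 2 := by ring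
        _ ≤ (Nat.sqrt s) ^ 2 := Nat.pow_le_pow_left a2 2
        _ ≤ s := a1
    · have a1 := Nat.lt_succ_sqrt' s
      have a2 := Nat.lt_succ_sqrt' (Nat.sqrt s)
      calc s < (Nat.sqrt s + 1) ^ 2 := a1
        _ ≤ ((Nat.sqrt (Nat.sqrt s) + 1) ^ 2) ^ 2 := Nat.pow_le_pow_left a2 2
        _ = _ := by ring
  have h3 := root_le s r h2
  by_cases hr : r < 12
  · left
    have : (r : ℝ) + 1 ≤ 12 := by
      have : (r : ℝ) ≤ 11 := by exact_mod_cast (by omega : r ≤ 11)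
      linarith
    linarith
  · right
    push Not at hr
    refine ⟨r ^ 3, 4 * r, r / 12, ?_, ?_, ?_, ?_, ?_⟩
    · calc (r ^ 3) ^ 4 = (r ^ 4) ^ 3 := by ring
        _ ≤ s ^ 3 := Nat.pow_le_pow_left h1 3
    · have hq : r ^ 3 ≤ 2 * (r ^ 3 / 2) + 1 := by omega
      obtain ⟨t, rfl⟩ : ∃ t, r = t + 12 := ⟨r - 12, by omega⟩
      generalize (t + 12) ^ 3 / 2 = q at hq
      nlinarith [Nat.zero_le t, Nat.zero_le (t ^ 2), Nat.zero_le (t ^ 3), Nat.zero_le (t ^ 4),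
        Nat.mul_le_mul_left (2 * (t + 12)) hq]
    · have hm : 12 * (r / 12) ≤ r := Nat.mul_div_le r 12
      have hq : r ^ 3 ≤ 2 * (r ^ 3 / 2) + 1 := by omega
      generalize r / 12 = m at hm
      have e1 : 144 * m ^ 2 ≤ r ^ 2 := by nlinarith
      have e2 : 144 * (m ^ 2 * (4 * r)) ≤ 4 * r ^ 3 := by
        calc 144 * (m ^ 2 * (4 * r)) = (144 * m ^ 2) * (4 * r) := by ring
          _ ≤ r ^ 2 * (4 * r) := Nat.mul_le_mul_right _ e1
          _ = 4 * r ^ 3 := by ring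
      have e3 : 144 * r ≤ r ^ 3 := by
        calc 144 * r = 12 * 12 * r := by ring
          _ ≤ r * r * r := Nat.mul_le_mul_right _ (Nat.mul_le_mul hr hr)
          _ = r ^ 3 := by ring
      omega
    · have : r ≤ r ^ 4 := Nat.le_self_pow (by norm_num) r
      omega
    · have hm : r + 1 ≤ 24 * (r / 12) := by omega
      have hm2 : (r : ℝ) + 1 ≤ 24 * ((r / 12 : ℕ) : ℝ) := by exact_mod_cast hm
      have hm3 : (0 : ℝ) ≤ ((r / 12 : ℕ) : ℝ) := by positivity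
      linarith

end Pool.Agent.H444R3.NLT
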