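import Pool.Agent.H181R5.NLT.Stmts

set_option autoImplicit false

/-! TaskPath of project H181-NLT (helper444). -/

namespace Pool.Agent.H444R3.NLT

open Finset Pool.Agent.H181R5.NLT

section
variable {V : Type} [Fintype V] [DecidableEq V] (D : V → V → Prop) (W : Finset V) (a : V)

open Classical in
/-- vertices reached in at most `i` steps -/
noncomputable def RR : ℕ → Finset V
  | 0 => {a}
  | i + 1 => RR i ∪ W.filter (fun v => ∃ u ∈ RR i, D u v)

variable {D W a}

theorem RR_sub (ha : a ∈ W) (i : ℕ) : RR D W a i ⊆ W := by
  classical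
  induction i with
  | zero => intro v hv; rw [RR, mem_singleton] at hv; rw [hv]; exact ha
  | succ i ih =>
    intro v hv
    rw [RR, mem_union] at hv
    rcases hv with hv | hv
    · exact ih hv
    · exact (mem_filter.mp hv).1

theorem RR_mono {i j : ℕ} (h : i ≤ j) : RR D W a i ⊆ RR D W a j := by
  induction h with
  | refl => exact Subset.refl _
  | step _ ih =>
    refine ih.trans ?_
    intro v hv
    rw [RR, mem_union]
    exact Or.inl hv

theorem RR_arc {i : ℕ} {u v : V} (hu : u ∈ RR D W a i) (hv : v ∈ W) (h : D u v) :
    v ∈ RR D W a (i + 1) := by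
  classical
  rw [RR, mem_union]
  right
  rw [mem_filter]
  exact ⟨hv, u, hu, h⟩

theorem walk (n : ℕ) : ∀ v, v ∈ RR D W a n → (∀ m < n, v ∉ RR D W a m) →
    ∃ p : ℕ → V, p 0 = a ∧ p n = v ∧ (∀ t, t < n → D (p t) (p (t + 1))) ∧
      ∀ t, t ≤ n → p t ∈ RR D W a t ∧ ∀ m < t, p t ∉ RR D W a m := by
  classical
  induction n with
  | zero =>
    intro v hv _
    rw [RR, mem_singleton] at hv
    refine ⟨fun _ => v, hv, rfl, fun t ht => absurd ht (Nat.not_lt_zero t), ?_⟩
    intro t ht
    have : t = 0 := by omega
    subst this
    refine ⟨?_, fun m hm => absurd hm (Nat.not_lt_zero m)⟩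
    rw [RR, mem_singleton]
    exact hv
  | succ n ih =>
    intro v hv hmin
    have h0 : v ∉ RR D W a n := hmin n (Nat.lt_succ_self n)
    have hv' := hv
    rw [RR, mem_union] at hv'
    rcases hv' with h | h
    · exact absurd h h0
    obtain ⟨hvW, u, hu, huv⟩ := mem_filter.mp h
    have humin : ∀ m < n, u ∉ RR D W a m := by
      intro m hm hum
      exact hmin (m + 1) (by omega) (RR_arc hum hvW huv)
    obtain ⟨p, p0, pn, parc, plev⟩ := ih u hu humin
    refine ⟨fun t => if t ≤ n then p t else v, ?_, ?_, ?_, ?_⟩
    · simp [p0]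
    · simp
    · intro t ht
      by_cases h1 : t < n
      · have e1 : t ≤ n := h1.le
        have e2 : t + 1 ≤ n := h1
        simp only [e1, e2, if_true]
        exact parc t h1
      · have : t = n := by omega
        subst this
        simp only [le_refl, if_true, Nat.not_succ_le_self, if_false]
        rw [pn]
        exact huv
    · intro t ht
      by_cases h1 : t ≤ n
      · simp only [h1, if_true]
        exact plev t h1
      · have : t = n + 1 := by omega
        subst this
        simp only [h1, if_false]
        exact ⟨hv, hmin⟩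

end

theorem taskPath : TaskPath := by
  intro V _ _ D S U k L a b hK hcard hUS hU ha hb hab
  classical
  set W := S \ U with hW
  have hWS : W ⊆ S := sdiff_subset
  have hex : ∃ n, n ≤ L ∧ b ∈ RR D W a n := by
    by_contra hcon
    push Not at hcon
    have hgrow : ∀ i, i ≤ L → 1 + i * (k / 2) ≤ (RR D W a i).card := by
      intro i
      induction i with
      | zero => intro _; simp [RR]
      | succ i ih =>
        intro hi
        have ih' := ih (by omega)
        set B := RR D W a i with hB
        set R' := RR D W a (i + 1) with hR'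
        have hBR : B ⊆ R' := RR_mono (Nat.le_succ i)
        set A := W \ R' with hA
        have hge : k ≤ (S \ (A ∪ B)).card := by
          by_contra hlt
          push Not at hlt
          have hdis : Disjoint A B := by
            rw [Finset.disjoint_left]
            intro v hv hvB
            exact (mem_sdiff.mp hv).2 (hBR hvB)
          obtain ⟨b', hb', a', ha', harc⟩ := hK A B (sdiff_subset.trans hWS)
            ((RR_sub ha i).trans hWS) hdis ⟨b, mem_sdiff.mpr ⟨hb, hcon (i + 1) hi⟩⟩
            ⟨a, RR_mono (Nat.zero_le i) (by simp [RR])⟩ hlt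
          have ha'' := mem_sdiff.mp ha'
          exact ha''.2 (RR_arc hb' ha''.1 harc)
        have hsub : S \ (A ∪ B) ⊆ U ∪ (R' \ B) := by
          intro v hv
          rw [mem_sdiff, mem_union] at hv
          obtain ⟨hvS, hvn⟩ := hv
          push Not at hvn
          rw [mem_union]
          by_cases hvU : v ∈ U
          · exact Or.inl hvU
          · right
            rw [mem_sdiff]
            refine ⟨?_, hvn.2⟩
            by_contra hvR
            exact hvn.1 (mem_sdiff.mpr ⟨mem_sdiff.mpr ⟨hvS, hvU⟩, hvR⟩)
        have h1 : (S \ (A ∪ B)).card ≤ U.card + (R' \ B).card :=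
          (card_le_card hsub).trans (card_union_le _ _)
        have h2 : (R' \ B).card = R'.card - B.card := card_sdiff_of_subset hBR
        have h3 : B.card ≤ R'.card := card_le_card hBR
        have h4 : (i + 1) * (k / 2) = i * (k / 2) + k / 2 := by ring
        rw [h4]
        omega
    have h1 := hgrow L le_rfl
    have h2 : (RR D W a L).card ≤ S.card := card_le_card ((RR_sub ha L).trans hWS)
    have h3 : L * (k / 2) = (k / 2) * L := Nat.mul_comm _ _
    omega
  have hex' : ∃ n, b ∈ RR D W a n := hex.imp fun n h => h.2
  set n := Nat.find hex' with hn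
  have hbn : b ∈ RR D W a n := Nat.find_spec hex'
  have hmin : ∀ m < n, b ∉ RR D W a m := fun m hm => Nat.find_min hex' hm
  have hnL : n ≤ L := by
    obtain ⟨m, hm, hbm⟩ := hex
    exact (Nat.find_min' hex' hbm).trans hm
  obtain ⟨p, p0, pn, parc, plev⟩ := walk n b hbn hmin
  have hn1 : 1 ≤ n := by
    by_contra h
    have : n = 0 := by omega
    rw [this] at pn
    exact hab (p0.symm.trans pn)
  refine ⟨n, p, hn1, hnL, p0, pn, parc, fun t ht => RR_sub ha t (plev t ht).1, ?_⟩
  intro t t' ht ht' heq
  by_contra hne
  rcases lt_or_gt_of_ne hne with h | h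
  · exact (plev t' ht').2 t h (heq ▸ (plev t ht).1)
  · exact (plev t ht).2 t' h (heq ▸ (plev t' ht').1)

end Pool.Agent.H444R3.NLT
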